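import Mathlib
import Pool.Agent.X30.WT3

/-!
# Counting sums of `l ≤ k` randomly shifted `k`-th powers
-/

set_option autoImplicit false

namespace Pool.Agent.Results.MP_4e3e45_nt.ManySumsRandomShifts

open MeasureTheory ProbabilityTheory

/-- the number of values of the random shift with index `m`: it is at most `m ^ η`, for `m ≥ 1`, `η ≥ 0` -/
noncomputable def size (η : ℝ) (m : ℕ) : ℕ := 2 ^ ⌊η * Nat.log 2 m⌋₊

/-- the number of integers `N ≤ X` that are sums of `l` of the numbers `x ^ k + w x`, `x ≥ 1` -/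
noncomputable def A (k l : ℕ) (w : ℕ → ℕ) (X : ℕ) : ℕ :=
  {N : ℕ | N ≤ X ∧ ∃ x : Fin l → ℕ, (∀ i, 1 ≤ x i) ∧ ∑ i, (x i ^ k + w (x i)) = N}.ncard

theorem result (k q : ℕ) (hq1 : 1 ≤ q) (hq : q + 2 ≤ k) (hs : 2 ^ q < 2 * k) (η : ℝ)
    (hη : ((k : ℝ) - η) * (2 * k + q * 2 ^ q) < 2 * k * (q + 1)) (hη1 : η ≤ k - 1)
    {Ω : Type*} [MeasurableSpace Ω] (μ : Measure Ω) [IsProbabilityMeasure μ]
    (δ : ℕ → Ω → ℕ) (hm : ∀ m, Measurable (δ m)) (hind : iIndepFun δ μ)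
    (hu : ∀ m, ∀ d < size η m, μ {ω | δ m ω = d} = 1 / (size η m : ENNReal)) :
    ∀ᵐ ω ∂μ, ∀ l : ℕ, 1 ≤ l → l ≤ k → ∀ ε : ℝ, 0 < ε → ∃ X₀ : ℕ, ∀ X : ℕ, X₀ ≤ X →
      (X : ℝ) ^ ((l : ℝ) / k - ε) < (A k l (fun m => δ m ω) X : ℝ) :=
  Pool.Agent.X30.WP.many_sums k q hq1 hq (by exact_mod_cast hs) η hη1 (by push_cast; exact hη) δ hm hind hu

end Pool.Agent.Results.MP_4e3e45_nt.ManySumsRandomShifts
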